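import Pool.Agent.Helper16.Endo25

set_option autoImplicit false

/-!
# The singular locus of the moduli space of endomorphisms of projective space

Over an algebraically closed field of characteristic zero a point of the moduli space of
degree `d` endomorphisms of `N`-dimensional projective space is singular if and only if the
corresponding endomorphism has a nontrivial automorphism, for all `N ≥ 1`, `d ≥ 2` with
`(N, d) ≠ (1, 2)`.
-/

namespace Pool.Agent.Results.MP_807a54_ag.SingularLocus

open Pool.Agent.Helper16.Endo

/-- **Singular points of the moduli space of endomorphisms of projective space.** -/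
theorem result.{u} (N d : ℕ) (hN : 1 ≤ N) (hd : 2 ≤ d) (hNd : ¬ (N = 1 ∧ d = 2))
    {k : Type u} [Field k] [IsAlgClosed k] [CharZero k] (c : Idx (N + 1) d → k)
    (hc : IsEndo c) : IsSingularPoint c ↔ HasAut c :=
  singular_iff hN hd hNd hc

end Pool.Agent.Results.MP_807a54_ag.SingularLocus
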